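import Pool.Agent.H414.LT.Eng
import Pool.Agent.H414.LT.Uch
import Pool.Agent.H414.LT.Wts
import Pool.Agent.H414.LT.Rnd
import Pool.Agent.H414.LT.Win
import Pool.Agent.H414.LT.Mod
import Pool.Agent.H414.LT.Che
import Pool.Agent.H414.LT.Law
import Pool.Agent.H414.LT.Upw
import Pool.Agent.H414.LT.Upper
import Pool.Agent.H414.LT.Mean
import Pool.Agent.H414.LT.Meanw
import Pool.Agent.H414.LT.Modif
import Pool.Agent.H414.LT.Sel
import Pool.Agent.H414.LT.Good1
import Pool.Agent.H414.LT.Sup
import Pool.Agent.H414.LT.Good2
import Pool.Agent.H414.LT.Fin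

/-!
# What the Riemann hypothesis for all symmetric powers says about the Lang-Trotter conjecture

`a p` are integers with `a p ^ 2 < 4 p` for all primes `p`, as the traces of Frobenius of an elliptic
curve. The Riemann hypothesis for the `L`-functions of the symmetric powers bounds the sums of
`U n (a p / √p)` over the primes `p ≤ x` by `C (n + 1) ^ (1 + ε) x ^ (1 / 2 + ε)`; with the division
fields and twists it says the same for the sums weighted by functions of `p` and `a p` modulo `m`.

1. The bounds for the symmetric powers give `C x ^ (3 / 4 + ε)` for the number of the primes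
`x < p ≤ 2 x` with `|a p| ≤ x ^ (1 / 4)`, in particular for those with `a p = t` (`x = 2 ^ k`).

2. This is the exact strength of these hypotheses, even if one adds all congruence conditions and
arbitrary twists: for every compatible family of laws of the trace modulo `m` with positive
probabilities (in the case of an elliptic curve, the law of the trace given the determinant), for
arbitrary twists `c i p` of absolute value at most `1` (for instance all Dirichlet characters and all
`p ^ (i t)`, `t` rational), and for arbitrary numbers `f k t` with sum at most `2 ^ (3 k / 4)` over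
`|t| ≤ 2 ^ (k / 4)` there is a system `a` with all the bounds, such that for all large `k` exactly
`f k t` of the primes `2 ^ k < p ≤ 2 ^ (k + 1)` have `a p = t`, for all `|t| ≤ 2 ^ (k / 4)`.

So neither the Lang-Trotter asymptotics for one trace, nor the infinitude of the primes with a given trace,
nor the averages over all traces up to `x ^ (1 / 4)` follow from these hypotheses.
-/

set_option autoImplicit false

namespace Pool.Agent.Results.MP_f1937f_nt.SmallTracesSharp

open Finset

open Pool.Agent.H414.LT in
/-- The Riemann hypothesis for all symmetric powers gives the bound `x ^ (3 / 4 + ε)` for the number of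
the primes `x < p ≤ 2 x` with trace at most `x ^ (1 / 4)`, and, with all twists and congruence conditions,
it allows all distributions of the small traces with sum at most `x ^ (3 / 4)`. -/
theorem result :
    (∀ a : ℕ → ℤ, IsSystem a →
      (∀ ε : ℝ, 0 < ε → ∃ C : ℝ, ∀ n x : ℕ, 1 ≤ n →
        |∑ p ∈ primesUpTo x, U n (tr a p)| ≤
          C * ((n : ℝ) + 1) ^ (1 + ε) * ((x : ℝ) + 1) ^ (1 / 2 + ε)) →
      ∀ ε : ℝ, 0 < ε → ∃ C : ℝ, ∀ k : ℕ,
        ((∑ t ∈ small k, ((blk k).filter fun p => a p = t).card : ℕ) : ℝ) ≤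
          C * (2 : ℝ) ^ ((3 / 4 + ε) * (k : ℝ))) ∧
    (∀ lam : ∀ m : ℕ, ZMod m → ZMod m → ℝ, IsLaw lam →
      ∀ c : ℕ → ℕ → ℂ, (∀ i p, ‖c i p‖ ≤ 1) →
      ∀ f : ℕ → ℤ → ℕ, (∀ k, ((∑ t ∈ small k, f k t : ℕ) : ℝ) ≤ (2 : ℝ) ^ (3 * (k : ℝ) / 4)) →
      ∃ a : ℕ → ℤ, IsSystem a ∧
        (∀ (m : ℕ) [NeZero m] (F : ZMod m → ZMod m → ℂ) (i : ℕ) (ε : ℝ), 0 < ε →
          ∃ C : ℝ, ∀ n x : ℕ,
            ‖∑ p ∈ primesUpTo x, c i p * ((U n (tr a p) : ℝ) * F p (a p) -
              if n = 0 then ∑ b : ZMod m, (lam m p b : ℂ) * F p b else 0)‖ ≤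
              C * ((n : ℝ) + 1) * ((x : ℝ) + 1) ^ (1 / 2 + ε)) ∧
        ∃ k₀ : ℕ, ∀ k, k₀ ≤ k → ∀ t ∈ small k,
          ((blk k).filter fun p => a p = t).card = f k t) := by
  have hUS : S_US := us
  have hWT : S_WT := wt_all us
  have hR : S_RND := rnd_all
  have hLAW : S_LAW := law ub ul hWT
  have hUPW : S_UPW := upw hUS
  refine ⟨upper hUPW, fun lam hl c hc f hf => ?_⟩
  exact construct mod_all (sel eng hWT hR hLAW ub) (good1 (mean hWT hR hLAW))
    (sup che (meanw hWT hR win_thm)) (modif asg) (good2 ub ul hUPW) lam hl c hc f hf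

end Pool.Agent.Results.MP_f1937f_nt.SmallTracesSharp
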